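import Pool.Agent.Helper85.LN2.Fr
import Pool.Agent.Helper2.LN.FIDX

/-! Project LN2 (MP_d0c558_al): goal GF. -/

namespace Pool.Agent.Helper94.LN2

open Pool.Agent.Helper85.LN Pool.Agent.Helper85.LN2 Pool.Agent.Helper5.Gap
open Pool.Agent.Helper2.LN

section
variable {m d : ℕ} (A : Auto (Fin m) (Fin d))

/-- The length of an element. -/
noncomputable def len (p : Equiv.Perm (List (Fin d))) : ℕ :=
  sInf {n | p ∈ ball (Set.range A.perm) n}

theorem exists_ball {p : Equiv.Perm (List (Fin d))} (h : p ∈ A.G) :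
    ∃ n, p ∈ ball (Set.range A.perm) n := by
  obtain ⟨w, rfl⟩ := (A.mem_G_iff p).mp h
  exact ⟨w.length, (mem_ball_iff A _ _).mpr ⟨w, le_rfl, rfl⟩⟩

theorem mem_ball_len {p : Equiv.Perm (List (Fin d))} (h : p ∈ A.G) :
    p ∈ ball (Set.range A.perm) (len A p) :=
  Nat.sInf_mem (s := {n | p ∈ ball (Set.range A.perm) n}) (exists_ball A h)

theorem len_le {p : Equiv.Perm (List (Fin d))} {n : ℕ} (h : p ∈ ball (Set.range A.perm) n) :
    len A p ≤ n := Nat.sInf_le h

theorem mem_ball_iff_len {p : Equiv.Perm (List (Fin d))} (h : p ∈ A.G) (n : ℕ) :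
    p ∈ ball (Set.range A.perm) n ↔ len A p ≤ n :=
  ⟨len_le A, fun h' => ball_mono A h' (mem_ball_len A h)⟩

theorem growth_pos (n : ℕ) : 1 ≤ growth (Set.range A.perm) n :=
  (Set.ncard_pos (finite_ball A n)).mpr ⟨1, one_mem_ball A n⟩

theorem growth_add (n k : ℕ) : growth (Set.range A.perm) (n + k) ≤
    growth (Set.range A.perm) n * growth (Set.range A.perm) k := by
  have hsub : ball (Set.range A.perm) (n + k) ⊆
      (fun x : Equiv.Perm (List (Fin d)) × Equiv.Perm (List (Fin d)) => x.1 * x.2) ''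
        ((ball (Set.range A.perm) n) ×ˢ (ball (Set.range A.perm) k)) := by
    intro g hg
    obtain ⟨w, hw, rfl⟩ := (mem_ball_iff A _ _).mp hg
    refine ⟨(A.val (w.take n), A.val (w.drop n)), ⟨?_, ?_⟩, ?_⟩
    · exact (mem_ball_iff A _ _).mpr ⟨_, by simp, rfl⟩
    · exact (mem_ball_iff A _ _).mpr ⟨_, by simp; omega, rfl⟩
    · show A.val (w.take n) * A.val (w.drop n) = A.val w
      rw [← A.val_append, List.take_append_drop]
  have hfin : ((ball (Set.range A.perm) n) ×ˢ (ball (Set.range A.perm) k)).Finite :=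
    (finite_ball A n).prod (finite_ball A k)
  calc growth (Set.range A.perm) (n + k) ≤ _ := Set.ncard_le_ncard hsub (hfin.image _)
    _ ≤ _ := Set.ncard_image_le hfin
    _ = _ := Set.ncard_prod

/-- The value of a product lies in the ball. -/
theorem prod_mem_ball {s : Equiv.Perm (List (Fin d))} {μ : ℕ}
    (hs : s ∈ ball (Set.range A.perm) μ) (u : List (Equiv.Perm (List (Fin d))))
    (hu : ∀ x ∈ u, x ∈ A.G) :
    (u.map fun x => x * s).prod ∈
      ball (Set.range A.perm) ((u.map fun x => len A x + μ).sum) := by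
  induction u with
  | nil => exact one_mem_ball A _
  | cons x u ih =>
    simp only [List.map_cons, List.prod_cons, List.sum_cons]
    exact mul_mem_ball A (mul_mem_ball A (mem_ball_len A (hu x List.mem_cons_self)) hs)
      (ih fun y hy => hu y (List.mem_cons_of_mem _ hy))

theorem tuple_bound {P : Subgroup (Equiv.Perm (List (Fin d)))} {s : Equiv.Perm (List (Fin d))}
    (hP : P ≤ A.G) (hsep : SepInj (P : Set (Equiv.Perm (List (Fin d)))) s) {μ : ℕ}
    (hs : s ∈ ball (Set.range A.perm) μ) {z K : ℝ} (hz : 0 < z)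
    (hK : ∀ T, (growth (Set.range A.perm) T : ℝ) * z ^ T ≤ K)
    (F : Finset (Equiv.Perm (List (Fin d)))) (hF : ∀ p ∈ F, p ∈ P) {n : ℕ}
    (hn : ∀ p ∈ F, len A p ≤ n) (j : ℕ) :
    (∑ p ∈ F, z ^ (len A p + μ)) ^ j ≤ K * (j * (n + μ) + 1) := by
  classical
  have h1 : (∑ p ∈ F, z ^ (len A p + μ)) ^ j =
      ∑ f ∈ Fintype.piFinset (fun _ : Fin j => F), z ^ (∑ i, (len A (f i) + μ)) := by
    have : (∑ p ∈ F, z ^ (len A p + μ)) ^ j =
        ∏ _i : Fin j, ∑ p ∈ F, z ^ (len A p + μ) := by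
      rw [Finset.prod_const, Finset.card_univ, Fintype.card_fin]
    rw [this, Finset.prod_univ_sum]
    refine Finset.sum_congr rfl fun f _ => ?_
    rw [Finset.prod_pow_eq_pow_sum]
  have hmaps : ∀ f ∈ Fintype.piFinset (fun _ : Fin j => F),
      (∑ i, (len A (f i) + μ)) ∈ Finset.range (j * (n + μ) + 1) := by
    intro f hf
    rw [Fintype.mem_piFinset] at hf
    rw [Finset.mem_range, Nat.lt_succ_iff]
    calc ∑ i, (len A (f i) + μ) ≤ ∑ _i : Fin j, (n + μ) :=
          Finset.sum_le_sum fun i _ => Nat.add_le_add_right (hn _ (hf i)) μ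
      _ = j * (n + μ) := by
          rw [Finset.sum_const, Finset.card_univ, Fintype.card_fin, smul_eq_mul]
  rw [h1, ← Finset.sum_fiberwise_of_maps_to hmaps]
  have hfib : ∀ t ∈ Finset.range (j * (n + μ) + 1),
      (∑ f ∈ (Fintype.piFinset (fun _ : Fin j => F)).filter
        (fun f => (∑ i, (len A (f i) + μ)) = t), z ^ (∑ i, (len A (f i) + μ))) ≤ K := by
    intro t _
    have h2 : (∑ f ∈ (Fintype.piFinset (fun _ : Fin j => F)).filter
        (fun f => (∑ i, (len A (f i) + μ)) = t), z ^ (∑ i, (len A (f i) + μ))) =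
        (((Fintype.piFinset (fun _ : Fin j => F)).filter
        (fun f => (∑ i, (len A (f i) + μ)) = t)).card : ℝ) * z ^ t := by
      rw [← nsmul_eq_mul, ← Finset.sum_const]
      refine Finset.sum_congr rfl fun f hf => ?_
      rw [(Finset.mem_filter.mp hf).2]
    rw [h2]
    refine le_trans (mul_le_mul_of_nonneg_right ?_ (by positivity)) (hK t)
    rw [Nat.cast_le]
    have h3 : growth (Set.range A.perm) t = (finite_ball A t).toFinset.card :=
      Set.ncard_eq_toFinset_card _ _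
    rw [h3]
    refine Finset.card_le_card_of_injOn
      (fun f => ((List.ofFn f).map fun x => x * s).prod) ?_ ?_
    · intro f hf
      have hf' := Finset.mem_filter.mp (Finset.mem_coe.mp hf)
      have hf1 := Fintype.mem_piFinset.mp hf'.1
      have h4 := prod_mem_ball A hs (List.ofFn f) (by
        intro x hx
        obtain ⟨i, rfl⟩ := (List.mem_ofFn' f x).mp hx
        exact hP (hF _ (hf1 i)))
      have h5 : ((List.ofFn f).map fun x => len A x + μ).sum = t := by
        rw [List.map_ofFn, List.sum_ofFn]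
        exact hf'.2
      rw [h5] at h4
      simpa using h4
    · intro f hf g hg hfg
      have hf1 := Fintype.mem_piFinset.mp (Finset.mem_filter.mp (Finset.mem_coe.mp hf)).1
      have hg1 := Fintype.mem_piFinset.mp (Finset.mem_filter.mp (Finset.mem_coe.mp hg)).1
      refine List.ofFn_injective (hsep _ _ ?_ ?_ ?_ hfg)
      · intro x hx
        obtain ⟨i, rfl⟩ := (List.mem_ofFn' f x).mp hx
        exact hF _ (hf1 i)
      · intro x hx
        obtain ⟨i, rfl⟩ := (List.mem_ofFn' g x).mp hx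
        exact hF _ (hg1 i)
      · simp
  calc _ ≤ ∑ _t ∈ Finset.range (j * (n + μ) + 1), K := Finset.sum_le_sum hfib
    _ = K * (j * (n + μ) + 1) := by
      rw [Finset.sum_const, Finset.card_range, nsmul_eq_mul]
      push_cast
      ring

theorem le_one_of_pow_le {θ K : ℝ} {N : ℕ} (h : ∀ j : ℕ, θ ^ j ≤ K * (j * N + 1)) : θ ≤ 1 := by
  by_contra hlt
  push Not at hlt
  obtain ⟨ε, hε, rfl⟩ : ∃ ε : ℝ, 0 < ε ∧ θ = 1 + ε := ⟨θ - 1, by linarith, by ring⟩
  have hK : 0 < K := by
    have := h 0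
    norm_num at this
    linarith
  obtain ⟨j, hj⟩ := exists_nat_gt (K * (2 * N + 1) / ε ^ 2)
  have hj0 : (0 : ℝ) < j := lt_of_le_of_lt (by positivity) hj
  have hj1 : (1 : ℝ) ≤ j := by
    have : 0 < j := by exact_mod_cast hj0
    exact_mod_cast this
  have h1 : (j * ε) ^ 2 ≤ K * (2 * j * N + 1) := by
    calc (j * ε) ^ 2 ≤ (1 + j * ε) ^ 2 := by nlinarith [mul_pos hj0 hε]
      _ ≤ ((1 + ε) ^ j) ^ 2 := by
          have hb := one_add_mul_le_pow (a := ε) (by linarith) j
          have : (0 : ℝ) ≤ 1 + j * ε := by positivity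
          exact pow_le_pow_left₀ this hb 2
      _ = (1 + ε) ^ (j * 2) := by rw [pow_mul]
      _ ≤ K * (((j * 2 : ℕ) : ℝ) * N + 1) := h (j * 2)
      _ = K * (2 * j * N + 1) := by push_cast; ring
  have h2 : K * (2 * j * N + 1) ≤ j * (K * (2 * N + 1)) := by
    have : K * (j * 1) ≥ K * 1 := by nlinarith
    nlinarith
  rw [div_lt_iff₀ (by positivity)] at hj
  nlinarith [mul_pos hj0 hj0]

theorem sum_bound {P : Subgroup (Equiv.Perm (List (Fin d)))} {s : Equiv.Perm (List (Fin d))}
    (hP : P ≤ A.G) (hsep : SepInj (P : Set (Equiv.Perm (List (Fin d)))) s) {μ : ℕ}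
    (hs : s ∈ ball (Set.range A.perm) μ) {z K : ℝ} (hz : 0 < z)
    (hK : ∀ T, (growth (Set.range A.perm) T : ℝ) * z ^ T ≤ K)
    (F : Finset (Equiv.Perm (List (Fin d)))) (hF : ∀ p ∈ F, p ∈ P) {n : ℕ}
    (hn : ∀ p ∈ F, len A p ≤ n) :
    (∑ p ∈ F, z ^ (len A p + μ)) ≤ 1 := by
  refine le_one_of_pow_le (K := K) (N := n + μ) fun j => ?_
  have := tuple_bound A hP hsep hs hz hK F hF hn j
  push_cast
  exact this

/-- The critical value. -/
theorem exists_crit : ∃ z₀ : ℝ, 0 < z₀ ∧ z₀ ≤ 1 ∧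
    (∀ T, 1 ≤ (growth (Set.range A.perm) T : ℝ) * z₀ ^ T) ∧
    ∀ z, 0 < z → z < z₀ → ∃ K, ∀ T, (growth (Set.range A.perm) T : ℝ) * z ^ T ≤ K := by
  set β := growth (Set.range A.perm) with hβ
  have hβ1 : ∀ n, (1 : ℝ) ≤ β n := fun n => by exact_mod_cast growth_pos A n
  have hβ0 : ∀ n, (0 : ℝ) < β n := fun n => lt_of_lt_of_le one_pos (hβ1 n)
  set u : ℕ → ℝ := fun n => Real.log (β n) with hu
  have hu0 : ∀ n, 0 ≤ u n := fun n => Real.log_nonneg (hβ1 n)
  have hsub : Subadditive u := by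
    intro n k
    have h1 : (β (n + k) : ℝ) ≤ β n * β k := by exact_mod_cast growth_add A n k
    calc u (n + k) ≤ Real.log (β n * β k) := Real.log_le_log (hβ0 _) h1
      _ = u n + u k := Real.log_mul (hβ0 n).ne' (hβ0 k).ne'
  have hbdd : BddBelow (Set.range fun n => u n / n) := by
    refine ⟨0, ?_⟩
    rintro _ ⟨n, rfl⟩
    exact div_nonneg (hu0 n) (Nat.cast_nonneg n)
  have hlim := hsub.tendsto_lim hbdd
  set L := hsub.lim with hL
  have hL0 : 0 ≤ L := ge_of_tendsto' hlim fun n => div_nonneg (hu0 n) (Nat.cast_nonneg n)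
  refine ⟨Real.exp (-L), Real.exp_pos _, by rw [Real.exp_le_one_iff]; linarith, ?_, ?_⟩
  · intro T
    rcases Nat.eq_zero_or_pos T with rfl | hT
    · simpa using hβ1 0
    · have h1 : L ≤ u T / T := hsub.lim_le_div hbdd hT.ne'
      have hT' : (0 : ℝ) < T := by exact_mod_cast hT
      rw [le_div_iff₀ hT'] at h1
      have h2 : (β T : ℝ) = Real.exp (u T) := (Real.exp_log (hβ0 T)).symm
      rw [h2, ← Real.exp_nat_mul, ← Real.exp_add]
      apply Real.one_le_exp
      nlinarith
  · intro z hz hzL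
    have h1 : Real.log z < -L := by
      rw [← Real.log_exp (-L)]
      exact Real.log_lt_log hz hzL
    have h2 : ∀ᶠ n : ℕ in Filter.atTop, u n / n < -Real.log z :=
      hlim.eventually_lt_const (by linarith)
    obtain ⟨N, hN⟩ := Filter.eventually_atTop.mp h2
    have h3 : ∀ T, N + 1 ≤ T → (β T : ℝ) * z ^ T ≤ 1 := by
      intro T hT
      have h4 := hN T (by omega)
      have hT' : (0 : ℝ) < T := by exact_mod_cast (show 0 < T by omega)
      rw [div_lt_iff₀ hT'] at h4
      have h5 : (β T : ℝ) = Real.exp (u T) := (Real.exp_log (hβ0 T)).symm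
      have h6 : z ^ T = Real.exp (T * Real.log z) := by
        rw [Real.exp_nat_mul, Real.exp_log hz]
      rw [h5, h6, ← Real.exp_add, Real.exp_le_one_iff]
      nlinarith
    refine ⟨1 + ∑ t ∈ Finset.range (N + 1), (β t : ℝ) * z ^ t, fun T => ?_⟩
    have h7 : ∀ t ∈ Finset.range (N + 1), 0 ≤ (β t : ℝ) * z ^ t := fun t _ => by
      have := hβ0 t
      positivity
    by_cases hT : N + 1 ≤ T
    · have := Finset.sum_nonneg h7
      linarith [h3 T hT]
    · have := Finset.single_le_sum h7 (Finset.mem_range.mpr (not_le.mp hT))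
      linarith

theorem sum_crit {z₀ : ℝ} (hz₀ : 0 < z₀)
    (hcrit : ∀ z, 0 < z → z < z₀ → ∃ K, ∀ T, (growth (Set.range A.perm) T : ℝ) * z ^ T ≤ K)
    {P : Subgroup (Equiv.Perm (List (Fin d)))} {s : Equiv.Perm (List (Fin d))}
    (hP : P ≤ A.G) (hsep : SepInj (P : Set (Equiv.Perm (List (Fin d)))) s) {μ : ℕ}
    (hs : s ∈ ball (Set.range A.perm) μ)
    (F : Finset (Equiv.Perm (List (Fin d)))) (hF : ∀ p ∈ F, p ∈ P) {n : ℕ}
    (hn : ∀ p ∈ F, len A p ≤ n) :
    (∑ p ∈ F, z₀ ^ (len A p + μ)) ≤ 1 := by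
  have hcont : Continuous fun z : ℝ => ∑ p ∈ F, z ^ (len A p + μ) := by fun_prop
  have ht : Filter.Tendsto (fun z : ℝ => ∑ p ∈ F, z ^ (len A p + μ))
      (nhdsWithin z₀ (Set.Iio z₀)) (nhds (∑ p ∈ F, z₀ ^ (len A p + μ))) :=
    (hcont.tendsto z₀).mono_left nhdsWithin_le_nhds
  refine le_of_tendsto ht ?_
  have h1 : Set.Ioo 0 z₀ ∈ nhdsWithin z₀ (Set.Iio z₀) := Ioo_mem_nhdsLT hz₀
  filter_upwards [h1] with z hz
  obtain ⟨K, hK⟩ := hcrit z hz.1 hz.2
  exact sum_bound A hP hsep hs hz.1 hK F hF hn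

theorem geom_tail (z : ℝ) (l N : ℕ) :
    (1 - z) * ∑ s ∈ Finset.range N, (if l ≤ s then z ^ s else 0) = z ^ l - z ^ (max l N) := by
  induction N with
  | zero => simp
  | succ N ih =>
    rw [Finset.sum_range_succ, mul_add, ih]
    by_cases h : l ≤ N
    · rw [if_pos h, max_eq_right h, max_eq_right (by omega)]
      ring
    · rw [if_neg h, max_eq_left (by omega), max_eq_left (by omega)]
      ring

end

theorem gf : S_GF := by
  classical
  intro m d A a P s hLN hP hsG hInL hE hsep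
  obtain ⟨E, hE⟩ := hE
  obtain ⟨μ, hs⟩ := exists_ball A hsG
  obtain ⟨z₀, hz0, hz1, hlow, hcrit⟩ := exists_crit A
  obtain ⟨c₀, hc₀⟩ := exists_c A a
  -- the finite sets `P ∩ B n`
  have hfin : ∀ n, ({p | p ∈ P ∧ p ∈ ball (Set.range A.perm) n} : Set _).Finite := fun n =>
    (finite_ball A n).subset fun p hp => hp.2
  set PB : ℕ → Finset (Equiv.Perm (List (Fin d))) := fun n => (hfin n).toFinset with hPB
  have hmem : ∀ n p, p ∈ PB n ↔ p ∈ P ∧ p ∈ ball (Set.range A.perm) n := by
    intro n p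
    rw [hPB]
    simp
  -- (1)
  obtain ⟨c₁, hc₁⟩ : ∃ c₁ : ℕ, ∀ e ∈ E, e ∈ A.G → e⁻¹ ∈ ball (Set.range A.perm) c₁ := by
    refine ⟨∑ e ∈ E, len A e⁻¹, fun e he heG => ?_⟩
    have h1 := mem_ball_len A (A.G.inv_mem heG)
    refine ball_mono A ?_ h1
    exact Finset.single_le_sum (f := fun e => len A e⁻¹) (fun _ _ => Nat.zero_le _) he
  have hone : ∀ n, growth (Set.range A.perm) n ≤ (d * E.card) * (PB (n + (c₀ + c₁))).card := by
    intro n
    have h1 : (LB A a (n + c₀)).ncard ≤ E.card * (PB (n + (c₀ + c₁))).card := by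
      have hex : ∀ g ∈ LB A a (n + c₀), ∃ e ∈ E, e ∈ A.G ∧ e⁻¹ * g ∈ P := by
        intro g hg
        exact hE g hg.2
      choose! f hf1 hf2 hf3 using hex
      rw [← Finset.card_product, ← Set.ncard_coe_finset]
      refine Set.ncard_le_ncard_of_injOn (fun g => (f g, (f g)⁻¹ * g)) ?_ ?_
        (Finset.finite_toSet _)
      · intro g hg
        rw [Finset.mem_coe, Finset.mem_product]
        refine ⟨hf1 g hg, (hmem _ _).mpr ⟨hf3 g hg, ?_⟩⟩
        have := mul_mem_ball A (hc₁ _ (hf1 g hg) (hf2 g hg)) hg.1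
        have e1 : n + (c₀ + c₁) = c₁ + (n + c₀) := by omega
        rw [e1]
        exact this
      · intro g hg g' hg' heq
        simp only [Prod.mk.injEq] at heq
        obtain ⟨e1, e2⟩ := heq
        rw [e1] at e2
        exact mul_left_cancel e2
    calc growth (Set.range A.perm) n ≤ d * (SB A a (n + c₀)).ncard := hc₀ n
      _ ≤ d * (LB A a (n + c₀)).ncard := Nat.mul_le_mul_left _ (SB_le_LB A hLN a _)
      _ ≤ d * (E.card * (PB (n + (c₀ + c₁))).card) := Nat.mul_le_mul_left _ h1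
      _ = _ := by ring
  set C := d * E.card with hC
  set c := c₀ + c₁ with hc
  have hbound : ∀ n, ∑ p ∈ PB n, z₀ ^ (len A p + μ) ≤ 1 := by
    intro n
    refine sum_crit A hz0 hcrit hP hsep hs (PB n) (fun p hp => ((hmem n p).mp hp).1) (n := n) ?_
    intro p hp
    exact len_le A ((hmem n p).mp hp).2
  rcases eq_or_lt_of_le hz1 with hz1 | hz1
  · -- `z₀ = 1`
    have hcard : ∀ n, (PB n).card ≤ 1 := by
      intro n
      have h1 := hbound n
      rw [hz1] at h1
      simp only [one_pow, Finset.sum_const, nsmul_eq_mul, mul_one] at h1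
      exact_mod_cast h1
    have hsub : (P : Set (Equiv.Perm (List (Fin d)))) ⊆ {1} := by
      intro p hp
      obtain ⟨n, hn⟩ := exists_ball A (hP hp)
      have h1 : p ∈ PB n := (hmem n p).mpr ⟨hp, hn⟩
      have h2 : (1 : Equiv.Perm (List (Fin d))) ∈ PB n :=
        (hmem n 1).mpr ⟨P.one_mem, one_mem_ball A n⟩
      exact Finset.card_le_one.mp (hcard n) p h1 1 h2
    exact (Set.finite_singleton 1).subset hsub
  · exfalso
    have hz1' : 0 < 1 - z₀ := by linarith
    have hCpos : 0 < C := by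
      have h1 := hone 0
      have h2 := growth_pos A 0
      rcases Nat.eq_zero_or_pos C with h0 | h0
      · rw [h0, zero_mul] at h1
        omega
      · exact h0
    have hCr : (0 : ℝ) < C := by exact_mod_cast hCpos
    -- Abel summation
    have habel : ∀ n, (1 - z₀) * ∑ s ∈ Finset.range (n + 1), ((PB s).card : ℝ) * z₀ ^ s ≤
        ∑ p ∈ PB n, z₀ ^ (len A p) := by
      intro n
      have h1 : ∀ s ∈ Finset.range (n + 1), ((PB s).card : ℝ) * z₀ ^ s =
          ∑ p ∈ PB n, (if len A p ≤ s then z₀ ^ s else 0) := by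
        intro s hs'
        have hsn : s ≤ n := by
          have := Finset.mem_range.mp hs'
          omega
        rw [← Finset.sum_filter, Finset.sum_const, nsmul_eq_mul]
        congr 2
        congr 1
        ext p
        rw [Finset.mem_filter, hmem, hmem]
        constructor
        · rintro ⟨h1, h2⟩
          exact ⟨⟨h1, ball_mono A hsn h2⟩, len_le A h2⟩
        · rintro ⟨⟨h1, _⟩, h3⟩
          exact ⟨h1, (mem_ball_iff_len A (hP h1) s).mpr h3⟩
      rw [Finset.sum_congr rfl h1, Finset.sum_comm, Finset.mul_sum]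
      refine Finset.sum_le_sum fun p _ => ?_
      rw [geom_tail]
      have : 0 ≤ z₀ ^ (max (len A p) (n + 1)) := by positivity
      linarith
    have hlarge : ∀ n, (1 - z₀) * (z₀ ^ c / C * (n + 1)) ≤ ∑ p ∈ PB (n + c), z₀ ^ (len A p) := by
      intro n
      refine le_trans (mul_le_mul_of_nonneg_left ?_ hz1'.le) (habel (n + c))
      have h1 : ∑ s ∈ Finset.range (n + 1), ((PB (s + c)).card : ℝ) * z₀ ^ (s + c) ≤
          ∑ s ∈ Finset.range (n + c + 1), ((PB s).card : ℝ) * z₀ ^ s := by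
        have e1 : n + c + 1 = c + (n + 1) := by omega
        rw [e1]
        have h5 := Finset.sum_range_add (fun s => ((PB s).card : ℝ) * z₀ ^ s) c (n + 1)
        rw [h5]
        have h2 : 0 ≤ ∑ s ∈ Finset.range c, ((PB s).card : ℝ) * z₀ ^ s :=
          Finset.sum_nonneg fun s _ => by positivity
        have h3 : ∑ s ∈ Finset.range (n + 1), ((PB (s + c)).card : ℝ) * z₀ ^ (s + c) =
            ∑ s ∈ Finset.range (n + 1), ((PB (c + s)).card : ℝ) * z₀ ^ (c + s) :=
          Finset.sum_congr rfl fun s _ => by rw [add_comm]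
        rw [h3]
        linarith
      refine le_trans ?_ h1
      have h4 : ∀ s ∈ Finset.range (n + 1), z₀ ^ c / C ≤
          ((PB (s + c)).card : ℝ) * z₀ ^ (s + c) := by
        intro s _
        have h5 : (growth (Set.range A.perm) s : ℝ) ≤ C * (PB (s + c)).card := by
          exact_mod_cast hone s
        have h6 := hlow s
        rw [div_le_iff₀ hCr, pow_add z₀ s c]
        have hzs : 0 < z₀ ^ s := by positivity
        have hzc : 0 < z₀ ^ c := by positivity
        have h7 : 1 ≤ (C * (PB (s + c)).card : ℝ) * z₀ ^ s :=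
          le_trans h6 (mul_le_mul_of_nonneg_right h5 hzs.le)
        calc z₀ ^ c = 1 * z₀ ^ c := by ring
          _ ≤ ((C * (PB (s + c)).card : ℝ) * z₀ ^ s) * z₀ ^ c :=
              mul_le_mul_of_nonneg_right h7 hzc.le
          _ = _ := by ring
      have h8 := Finset.sum_le_sum h4
      rw [Finset.sum_const, Finset.card_range, nsmul_eq_mul] at h8
      calc z₀ ^ c / C * (n + 1) = ((n + 1 : ℕ) : ℝ) * (z₀ ^ c / C) := by push_cast; ring
        _ ≤ _ := h8
    have hz0μ : 0 < z₀ ^ μ := by positivity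
    have hupper : ∀ n, (∑ p ∈ PB n, z₀ ^ (len A p)) * z₀ ^ μ ≤ 1 := by
      intro n
      have := hbound n
      rw [Finset.sum_mul]
      refine le_trans (le_of_eq (Finset.sum_congr rfl fun p _ => ?_)) this
      rw [pow_add]
    set δ := (1 - z₀) * (z₀ ^ c / C) * z₀ ^ μ with hδ
    have hδ0 : 0 < δ := by positivity
    obtain ⟨n, hn⟩ := exists_nat_gt (1 / δ)
    rw [div_lt_iff₀ hδ0] at hn
    have h1 := hlarge n
    have h2 := hupper (n + c)
    have h3 := mul_le_mul_of_nonneg_right h1 hz0μ.le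
    have h4 : (1 - z₀) * (z₀ ^ c / C * (n + 1)) * z₀ ^ μ = (n + 1) * δ := by rw [hδ]; ring
    rw [h4] at h3
    nlinarith

end Pool.Agent.Helper94.LN2
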